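import Pool.Agent.H26.QQ.Targets

/-!
# (CVQ) every pair belongs to a class (MP_7ecdd4_nt)
-/

set_option autoImplicit false

open Finset MvPolynomial Filter

namespace Pool.Agent.H4.QQ

open Pool.Agent.H29.FX
open Pool.Agent.H26.QQ

/-- logarithms are small -/
private lemma cvq_log (A δ : ℝ) (hδ : 0 < δ) :
    ∀ᶠ Y : ℝ in atTop, 1 + A * Real.log Y ≤ Y ^ δ := by
  have h1 : (fun Y : ℝ => 1 + A * Real.log Y) =o[atTop] fun Y : ℝ => Y ^ δ := by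
    refine Asymptotics.IsLittleO.add ?_ ((isLittleO_log_rpow_atTop hδ).const_mul_left A)
    exact Asymptotics.isLittleO_const_left.2 (Or.inr
      (tendsto_norm_atTop_atTop.comp (tendsto_rpow_atTop hδ)))
  filter_upwards [h1.bound one_pos, eventually_ge_atTop (1 : ℝ)] with Y h2 h3
  rw [one_mul] at h2
  calc 1 + A * Real.log Y ≤ ‖1 + A * Real.log Y‖ := Real.le_norm_self _
    _ ≤ ‖Y ^ δ‖ := h2
    _ = Y ^ δ := Real.norm_of_nonneg (Real.rpow_nonneg (by linarith) δ)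

/-- the modulus -/
theorem CVQ_mod (hPCK : T_PCK) (hSPL : T_SPL) (Y ε γ' μ K : ℝ) (v s₀ E : ℕ) (F N : ℤ)
    (hY : 1 < Y) (hμ : 0 < μ) (hμε : μ ≤ ε / 4) (hγ : γ' ≤ μ) (hD : Dust E γ' ε Y F)
    (hN : N ≠ 0) (hK : |(N : ℝ)| ≤ K) (hKε : K ^ (1 / ((v : ℝ) + 1)) ≤ Y ^ (ε / 2))
    (hs : (s₀ : ℝ) ^ s₀ ≤ Y ^ (ε / 4)) :
    ∃ Q : ℕ, 2 ≤ Q ∧ Squarefree Q ∧ Y ^ μ ≤ (Q : ℝ) ∧ (Q : ℝ) ≤ Y ^ (2 * μ) ∧
      (Q : ℤ) ^ E ∣ F ∧
      ∀ l : ℕ, l.Prime → l ∣ Q → s₀ ≤ l ∧ (l : ℤ) ^ E ∣ F ∧ ¬ (l : ℤ) ^ (v + 1) ∣ N := by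
  classical
  have hY0 : 0 < Y := by linarith
  obtain ⟨D, hD1, hD2⟩ := hD
  obtain ⟨D', hD's, hD', hprod⟩ := hSPL D N v s₀ K (fun l hl => (hD1 l hl).1) hN hK
  have hP0 : (0 : ℝ) ≤ ∏ l ∈ D', (l : ℝ) := prod_nonneg fun l _ => Nat.cast_nonneg l
  have hbig : Y ^ μ ≤ ∏ l ∈ D', (l : ℝ) := by
    have h1 : Y ^ ε ≤ (∏ l ∈ D', (l : ℝ)) * (Y ^ (ε / 4) * Y ^ (ε / 2)) := by
      refine hD2.trans (hprod.trans ?_)
      rw [mul_assoc]
      refine mul_le_mul_of_nonneg_left ?_ hP0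
      exact mul_le_mul hs hKε (Real.rpow_nonneg ((abs_nonneg _).trans hK) _)
        (Real.rpow_nonneg hY0.le _)
    have h2 : Y ^ ε = Y ^ (ε / 4) * (Y ^ (ε / 4) * Y ^ (ε / 2)) := by
      rw [← Real.rpow_add hY0, ← Real.rpow_add hY0]
      congr 1
      ring
    rw [h2] at h1
    have h3 : 0 < Y ^ (ε / 4) * Y ^ (ε / 2) :=
      mul_pos (Real.rpow_pos_of_pos hY0 _) (Real.rpow_pos_of_pos hY0 _)
    exact (Real.rpow_le_rpow_of_exponent_le hY.le hμε).trans (le_of_mul_le_mul_right h1 h3)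
  have hone : 1 < Y ^ μ := Real.one_lt_rpow hY hμ
  obtain ⟨D2, hD2s, hlow, hup⟩ := hPCK (Y ^ μ) (Y ^ μ) D' hone.le hone.le (by
    intro l hl
    obtain ⟨h1, h2, -⟩ := hD1 l (hD's hl)
    exact ⟨h1.one_le, h2.trans (Real.rpow_le_rpow_of_exponent_le hY.le hγ)⟩) hbig
  have hpr : ∀ l ∈ D2, l.Prime := fun l hl => (hD1 l (hD's (hD2s hl))).1
  have hcast : ((∏ l ∈ D2, l : ℕ) : ℝ) = ∏ l ∈ D2, (l : ℝ) := by push_cast; rfl
  have hmem : ∀ l : ℕ, l.Prime → l ∣ ∏ l ∈ D2, l → l ∈ D2 := by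
    intro l hl hd
    obtain ⟨k, hk, hlk⟩ := (hl.prime.dvd_finset_prod_iff (fun l => l)).1 hd
    have := (Nat.prime_dvd_prime_iff_eq hl (hpr k hk)).1 hlk
    rw [this]
    exact hk
  refine ⟨∏ l ∈ D2, l, ?_, ?_, ?_, ?_, ?_, ?_⟩
  · have h1 : (1 : ℝ) < ((∏ l ∈ D2, l : ℕ) : ℝ) := by
      rw [hcast]
      exact hone.trans_le hlow
    exact_mod_cast h1
  · refine Finset.squarefree_prod_of_pairwise_isCoprime ?_ fun l hl => (hpr l hl).squarefree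
    intro a ha b hb hab
    exact Nat.coprime_iff_isRelPrime.1 ((Nat.coprime_primes (hpr a ha) (hpr b hb)).2 hab)
  · rw [hcast]
    exact hlow
  · rw [hcast]
    refine hup.trans (le_of_eq ?_)
    rw [← Real.rpow_add hY0]
    congr 1
    ring
  · push_cast
    rw [← Finset.prod_pow]
    refine Finset.prod_dvd_of_coprime ?_ fun l hl => (hD1 l (hD's (hD2s hl))).2.2
    intro a ha b hb hab
    exact ((Nat.isCoprime_iff_coprime.2
      ((Nat.coprime_primes (hpr a ha) (hpr b hb)).2 hab)).pow_left).pow_right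
  · intro l hl hd
    have hl2 := hmem l hl hd
    exact ⟨(hD' l (hD2s hl2)).1, (hD1 l (hD's (hD2s hl2))).2.2, (hD' l (hD2s hl2)).2⟩

/-- the second alternative -/
theorem CVQ_exact (hTYQ : T_TYQ) (n B' s : ℕ) (δ Y Yp : ℝ) (pt : Fin n → Fin 3)
    (e : Fin n → ℕ) (L : Tw n) (z : Fin n → ℤ) (hY : 1 ≤ Y)
    (hYp : ∀ (Y : ℝ) (N : ℤ), Yp ≤ Y → N ≠ 0 → Real.log |(N : ℝ)| ≤ Y →
      ∃ p : ℕ, p.Prime ∧ Y ≤ p ∧ (p : ℝ) ≤ Y ^ 2 ∧ ¬ (p : ℤ) ∣ N)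
    (hYδ : Yp ≤ Y ^ δ) (hmain : B' * (s + 2) * Real.log Y ≤ Y ^ δ) (hG : Gd L)
    (hJ : eval z (TJ L) ≠ 0)
    (h0 : ∀ i ∈ TI L, eval z (gd pt e (TD L i)) = 0)
    (hb1 : |((eval z (TJ L) : ℤ) : ℝ)| ≤ Y ^ B')
    (hb3 : ∀ (i : Fin n) (β : Fin n → Fin s) (j : Fin n),
      |((eval z (TD L j (dw (TD L) (fun v => (β v : ℕ)) (gd pt e (TD L i)))) : ℤ) : ℝ)| ≤
        Y ^ (B' * (s + 1))) :
    ∃ p : ℕ, p.Prime ∧ Y ^ δ ≤ p ∧ (p : ℝ) ≤ Y ^ (2 * δ) ∧ ¬ (p : ℤ) ∣ eval z (TJ L) ∧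
      (Fl2 pt e L s z ∨
      ∃ (i : Fin n) (β : Fin n → Fin s) (j : Fin n), j ∈ TI L ∧
        eval z (dw (TD L) (fun v => (β v : ℕ)) (gd pt e (TD L i))) = 0 ∧
        ¬ (p : ℤ) ∣ eval z (TD L j (dw (TD L) (fun v => (β v : ℕ)) (gd pt e (TD L i))))) := by
  have hY0 : 0 < Y := by linarith
  have hlogY : 0 ≤ Real.log Y := Real.log_nonneg hY
  have hpow : (Y ^ δ) ^ 2 = Y ^ (2 * δ) := by
    rw [← Real.rpow_natCast (Y ^ δ) 2, ← Real.rpow_mul hY0.le]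
    congr 1
    push_cast
    ring
  have hB0 : (0 : ℝ) ≤ B' := Nat.cast_nonneg B'
  have hJlog : Real.log |((eval z (TJ L) : ℤ) : ℝ)| ≤ B' * Real.log Y := by
    have h0 : 0 < |((eval z (TJ L) : ℤ) : ℝ)| := abs_pos.2 (by exact_mod_cast hJ)
    calc Real.log |((eval z (TJ L) : ℤ) : ℝ)| ≤ Real.log (Y ^ B') := Real.log_le_log h0 hb1
      _ = B' * Real.log Y := by rw [Real.log_pow]
  rcases hTYQ n s pt e L z hG h0 with hF | ⟨i, β, j, hj, ho, hnz⟩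
  · obtain ⟨p, hp1, hp2, hp3, hp4⟩ := hYp (Y ^ δ) (eval z (TJ L)) hYδ hJ (by
      refine hJlog.trans (le_trans ?_ hmain)
      have h3 : (B' : ℝ) * 1 ≤ B' * (s + 2) := by
        have : (0 : ℝ) ≤ s := Nat.cast_nonneg s
        gcongr
        linarith
      rw [mul_one] at h3
      exact mul_le_mul_of_nonneg_right h3 hlogY)
    exact ⟨p, hp1, hp2, hpow ▸ hp3, hp4, Or.inl hF⟩
  · have hlog2 : Real.log |((eval z (TD L j (dw (TD L) (fun v => (β v : ℕ))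
        (gd pt e (TD L i)))) : ℤ) : ℝ)| ≤ B' * (s + 1) * Real.log Y := by
      have h0 : 0 < |((eval z (TD L j (dw (TD L) (fun v => (β v : ℕ))
        (gd pt e (TD L i)))) : ℤ) : ℝ)| :=
        abs_pos.2 (by exact_mod_cast hnz)
      have h1 := Real.log_le_log h0 (hb3 i β j)
      rw [Real.log_pow] at h1
      push_cast at h1
      exact h1
    obtain ⟨p, hp1, hp2, hp3, hp4⟩ := hYp (Y ^ δ)
      (eval z (TJ L) * eval z (TD L j (dw (TD L) (fun v => (β v : ℕ)) (gd pt e (TD L i)))))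
      hYδ (mul_ne_zero hJ hnz) (by
        rw [Int.cast_mul, abs_mul, Real.log_mul (abs_pos.2 (by exact_mod_cast hJ)).ne'
          (abs_pos.2 (by exact_mod_cast hnz)).ne']
        have h3 : (B' : ℝ) * (s + 2) * Real.log Y =
          B' * Real.log Y + B' * (s + 1) * Real.log Y := by ring
        linarith)
    exact ⟨p, hp1, hp2, hpow ▸ hp3, fun h => hp4 (h.mul_right _), Or.inr ⟨i, β, j, hj, ho,
      fun h => hp4 (h.mul_left _)⟩⟩

theorem pf_CVQ (hBNQ : T_BNQ) (hTYQ : T_TYQ) (hNUV : T_NUV) (hPCK : T_PCK) (hSPL : T_SPL)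
    (hPRI : T_PRI) : T_CVQ := by
  intro n B δ ε hδ hδ1 hε
  obtain ⟨B', hB'⟩ := hBNQ n B
  obtain ⟨Yp, hYp2, hYp⟩ := hPRI
  have hB0 : (0 : ℝ) ≤ B' := Nat.cast_nonneg B'
  obtain ⟨v, hv⟩ := exists_nat_ge (4 * B' / ε + 4 / ε)
  have hv1 : 4 * (B' : ℝ) ≤ ε * (v + 1) := by
    have h1 : 4 * (B' : ℝ) / ε ≤ v := by
      have : 0 ≤ 4 / ε := by positivity
      linarith
    rw [div_le_iff₀ hε] at h1
    linarith
  have hv2 : 4 ≤ ε * ((v : ℝ) + 1) := by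
    have h1 : 4 / ε ≤ v := by
      have : 0 ≤ 4 * (B' : ℝ) / ε := by positivity
      linarith
    rw [div_le_iff₀ hε] at h1
    linarith
  have hv0 : (0 : ℝ) < (v : ℝ) + 1 := by positivity
  have hn0 : (0 : ℝ) < (n : ℝ) + 2 := by positivity
  set μ : ℝ := (δ / (n + 2)) / (v + 1) with hμ
  have hμ0 : 0 < μ := by positivity
  have hμv : μ * ((v : ℝ) + 1) = δ / (n + 2) := by
    rw [hμ]
    field_simp
  have hμε : μ ≤ ε / 4 := by
    rw [hμ, div_le_iff₀ hv0]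
    have h1 : δ / (n + 2) ≤ 1 := by
      rw [div_le_one hn0]
      have : (0 : ℝ) ≤ n := Nat.cast_nonneg n
      linarith
    linarith
  refine ⟨v, fun s₀ => ⟨μ, hμ0, fun c hc hcδ => ?_⟩⟩
  obtain ⟨Y₁, hY₁⟩ := eventually_atTop.1 (((cvq_log (3 * B') (δ / 4) (by linarith)).and
    ((tendsto_rpow_atTop hδ).eventually_ge_atTop Yp)).and
    ((tendsto_rpow_atTop (show 0 < ε / 4 by linarith)).eventually_ge_atTop ((s₀ : ℝ) ^ s₀)))
  refine ⟨max 2 Y₁, le_max_left _ _, ?_⟩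
  intro Y H γ' pt e u w L z E hY hvE hγ hH he hG hq hS hJ
  have hY2 : 2 ≤ Y := (le_max_left _ _).trans hY
  obtain ⟨⟨hlog, hYδ⟩, hYs⟩ := hY₁ Y ((le_max_right _ _).trans hY)
  have hY1 : 1 ≤ Y := by linarith
  have hY0 : 0 < Y := by linarith
  have hc8 : c ≤ δ / 8 := by
    refine hcδ.trans ?_
    apply div_le_div_of_nonneg_left hδ.le (by norm_num)
    have : (0 : ℝ) ≤ n := Nat.cast_nonneg n
    linarith
  set s := ⌊Y ^ (2 * c)⌋₊ with hs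
  have hs1 : (s : ℝ) ≤ Y ^ (δ / 4) := by
    refine (Nat.floor_le (Real.rpow_nonneg hY0.le _)).trans ?_
    exact Real.rpow_le_rpow_of_exponent_le hY1 (by linarith)
  have hsY : (s : ℝ) ≤ Y := by
    refine hs1.trans ?_
    calc Y ^ (δ / 4) ≤ Y ^ (1 : ℝ) := Real.rpow_le_rpow_of_exponent_le hY1 (by linarith)
      _ = Y := Real.rpow_one Y
  obtain ⟨hb1, hb2, hb3⟩ := hB' Y s pt e L z hY2 hsY hG hq he hS.pos hS.le
  have hQ : 1 ≤ Y ^ (δ / 4) := Real.one_le_rpow hY1 (by linarith)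
  have hlogY : 0 ≤ Real.log Y := Real.log_nonneg hY1
  by_cases hcase : ∀ i ∈ TI L, eval z (gd pt e (TD L i)) = 0
  · right
    have hmain : B' * (s + 2) * Real.log Y ≤ Y ^ δ := by
      have h2 : (B' : ℝ) * (s + 2) * Real.log Y ≤ B' * (3 * Y ^ (δ / 4)) * Real.log Y := by
        gcongr
        linarith
      calc B' * (s + 2) * Real.log Y
          ≤ B' * (3 * Y ^ (δ / 4)) * Real.log Y := h2
        _ ≤ Y ^ (δ / 4) * (1 + 3 * B' * Real.log Y) := by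
          have : 0 ≤ Y ^ (δ / 4) := by linarith
          linarith
        _ ≤ Y ^ (δ / 4) * Y ^ (δ / 4) := by gcongr
        _ = Y ^ (δ / 4 + δ / 4) := (Real.rpow_add hY0 _ _).symm
        _ ≤ Y ^ δ := Real.rpow_le_rpow_of_exponent_le hY1 (by linarith)
    exact CVQ_exact hTYQ n B' s δ Y Yp pt e L z hY1 hYp hYδ hmain hG hJ hcase hb1 hb3
  · left
    push Not at hcase
    obtain ⟨i, hi, hne⟩ := hcase
    have hK : |((eval z (TJ L) * eval z (gd pt e (TD L i)) : ℤ) : ℝ)| ≤ Y ^ (2 * (B' : ℝ)) := by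
      rw [Int.cast_mul, abs_mul]
      refine (mul_le_mul hb1 (hb2 i) (abs_nonneg _) (by positivity)).trans (le_of_eq ?_)
      rw [← pow_add, ← Real.rpow_natCast]
      congr 1
      push_cast
      ring
    have hKε : (Y ^ (2 * (B' : ℝ))) ^ (1 / ((v : ℝ) + 1)) ≤ Y ^ (ε / 2) := by
      rw [← Real.rpow_mul hY0.le]
      refine Real.rpow_le_rpow_of_exponent_le hY1 ?_
      rw [mul_one_div, div_le_iff₀ hv0]
      linarith
    obtain ⟨Q, hQ2, hQs, hQl, hQu, hQE, hQp⟩ := CVQ_mod hPCK hSPL Y ε γ' μ (Y ^ (2 * (B' : ℝ)))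
      v s₀ E (eval z (fq pt e u w)) (eval z (TJ L) * eval z (gd pt e (TD L i))) (by linarith)
      hμ0 hμε hγ hS.dust (mul_ne_zero hJ hne) hK hKε hYs
    have hQpow : ∀ t : ℝ, (Y ^ t) ^ (v + 1) = Y ^ (t * ((v : ℝ) + 1)) := by
      intro t
      rw [← Real.rpow_natCast, ← Real.rpow_mul hY0.le]
      push_cast
      rfl
    refine ⟨i, Q, hi, hQ2, hQs, fun l hl hd => (hQp l hl hd).1, ?_, ?_, hQE, ?_⟩
    · rw [← hμv, ← hQpow]
      exact pow_le_pow_left₀ (Real.rpow_nonneg hY0.le _) hQl _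
    · rw [← hμv, ← mul_assoc, ← hQpow]
      exact pow_le_pow_left₀ (Nat.cast_nonneg _) hQu _
    · intro l hl hd
      exact hNUV n pt e u w L z i l E v (fun v => (he v).1) hl hvE (hQp l hl hd).2.1 hS.cop
        (hQp l hl hd).2.2

end Pool.Agent.H4.QQ
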