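import Pool.Agent.H26.QQ.Targets
import Pool.Agent.H26.TFX.FNA

/-!
# (FNQ) two entries which are products of `k` powers, one dusty entry (MP_7ecdd4_nt)
-/

set_option autoImplicit false

open Finset MvPolynomial

namespace Pool.Agent.H4.QQ

open Pool.Agent.H29.FX
open Pool.Agent.H26.QQ
open Pool.Agent.H26.TFX
open Pool.Agent.H38.AE.Statement

theorem FNQ_rec (hSTQ : T_STQ) (n : ℕ) (δ ε : ℝ) (hδ : 0 < δ) (hδ1 : δ ≤ 1) (hε : 0 < ε) :
    ∀ m B, RecQ n δ ε m B := by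
  intro m
  induction m with
  | zero => exact fun B => hSTQ.1 n B δ ε hδ hδ1 hε
  | succ m ih => exact fun B => hSTQ.2 n m B δ ε hδ hδ1 hε ih

/-- the two other entries -/
theorem FNQ_idx (a : Fin 3) : ∃ (b c : Fin 3) (σ : Fin 3 → Fin 3), b ≠ a ∧ c ≠ a ∧ b ≠ c ∧
    (∀ i, σ i = 0 ↔ i = b) ∧ (∀ i, σ i = 1 ↔ i = c) ∧ (∀ i, i = a ∨ i = b ∨ i = c) ∧
    ∀ x : Fin 3 → ℤ, ∑ i, x i = x b + x c + x a := by
  fin_cases a
  · refine ⟨1, 2, ![2, 0, 1], by decide, by decide, by decide, by decide, by decide,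
      by decide, fun x => ?_⟩
    rw [Fin.sum_univ_three]
    show x 0 + x 1 + x 2 = x 1 + x 2 + x 0
    ring
  · refine ⟨0, 2, ![0, 2, 1], by decide, by decide, by decide, by decide, by decide,
      by decide, fun x => ?_⟩
    rw [Fin.sum_univ_three]
    show x 0 + x 1 + x 2 = x 0 + x 2 + x 1
    ring
  · refine ⟨0, 1, ![0, 1, 2], by decide, by decide, by decide, by decide, by decide,
      by decide, fun x => ?_⟩
    rw [Fin.sum_univ_three]
    show x 0 + x 1 + x 2 = x 0 + x 1 + x 2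
    ring

/-- the representation with small exponents -/
theorem FNQ_fin {k : ℕ} (u : Fin 3 → ℤ) (a : Fin 3) (Y T : ℝ) (x : Fin 3 → ℤ)
    (hx : Admissible x)
    (hP : ∃ z e : Fin 3 → Fin k → ℕ, (∀ i j, 1 ≤ z i j ∧ 1 ≤ e i j) ∧
      (∀ i, i ≠ a → x i = u i * ∏ j, (z i j : ℤ) ^ e i j) ∧ ∏ i, ∏ j, (z i j : ℝ) ≤ Y)
    (hT : 1 ≤ T) (hH : ∀ i, |(x i : ℝ)| ≤ Real.exp T) :
    ∃ (z : Fin (3 * k) → ℤ) (e : Fin (3 * k) → ℕ), (∀ v, 1 ≤ z v) ∧
      (∀ v, 1 ≤ e v ∧ (e v : ℝ) ≤ 2 * T) ∧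
      (∀ b, b ≠ a → x b = u b * eval z (en (FNA_pt k) e b)) ∧ ∏ v, (z v : ℝ) ≤ Y := by
  classical
  obtain ⟨z₀, e, hze, hxz, hY⟩ := hP
  set z : Fin 3 → Fin k → ℕ := fun i j => if i = a then 1 else z₀ i j with hz
  have hz1 : ∀ i j, 1 ≤ z i j ∧ z i j ≤ z₀ i j := by
    intro i j
    rw [hz]
    simp only
    split_ifs
    · exact ⟨le_refl _, (hze i j).1⟩
    · exact ⟨(hze i j).1, le_refl _⟩
  set e₀ : Fin 3 → Fin k → ℕ := fun i j => if z i j = 1 then 1 else e i j with he₀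
  have hpow : ∀ i j, (z i j : ℤ) ^ e₀ i j = (z i j : ℤ) ^ e i j := by
    intro i j
    rw [he₀]
    simp only
    split_ifs with h
    · rw [h]
      simp
    · rfl
  have hza : ∀ i, i ≠ a → ∀ j, z i j = z₀ i j := by
    intro i hi j
    rw [hz]
    simp only
    rw [if_neg hi]
  have hb : ∀ i j, 1 ≤ e₀ i j ∧ (e₀ i j : ℝ) ≤ 2 * T := by
    intro i j
    rw [he₀]
    simp only
    split_ifs with h
    · refine ⟨le_refl _, ?_⟩
      push_cast
      linarith
    · refine ⟨(hze i j).2, ?_⟩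
      have hia : i ≠ a := by
        intro hia
        apply h
        rw [hz]
        simp only
        rw [if_pos hia]
      have hz2 : 2 ≤ z i j := by
        have := (hz1 i j).1
        omega
      have h1 : (z i j : ℤ) ^ e i j ∣ x i := by
        rw [hxz i hia, hza i hia j]
        exact (Finset.dvd_prod_of_mem (fun j => (z₀ i j : ℤ) ^ e i j) (mem_univ j)).mul_left _
      have h2 : (z i j : ℤ) ^ e i j ≤ |x i| :=
        Int.le_of_dvd (abs_pos.2 (hx.1 i)) ((dvd_abs _ _).2 h1)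
      have h3 : (2 : ℝ) ^ e i j ≤ Real.exp T := by
        have h4 : ((2 : ℤ) ^ e i j) ≤ |x i| := by
          refine le_trans ?_ h2
          exact pow_le_pow_left₀ (by norm_num) (by exact_mod_cast hz2) _
        have h5 : ((((2 : ℤ) ^ e i j : ℤ)) : ℝ) ≤ ((|x i| : ℤ) : ℝ) := by exact_mod_cast h4
        push_cast at h5
        exact h5.trans (hH i)
      have h6 := Real.log_le_log (by positivity) h3
      rw [Real.log_exp, Real.log_pow] at h6
      have h7 := Real.log_two_gt_d9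
      have h8 : (0 : ℝ) ≤ (e i j : ℝ) := Nat.cast_nonneg _
      nlinarith
  refine ⟨fun v => (z (finProdFinEquiv.symm v).1 (finProdFinEquiv.symm v).2 : ℤ),
    fun v => e₀ (finProdFinEquiv.symm v).1 (finProdFinEquiv.symm v).2, ?_, ?_, ?_, ?_⟩
  · intro v
    have := (hz1 (finProdFinEquiv.symm v).1 (finProdFinEquiv.symm v).2).1
    show (1 : ℤ) ≤ ((z (finProdFinEquiv.symm v).1 (finProdFinEquiv.symm v).2 : ℕ) : ℤ)
    exact_mod_cast this
  · intro v
    exact hb _ _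
  · intro b hba
    rw [hxz b hba]
    congr 1
    unfold en
    rw [map_prod]
    simp only [map_pow, eval_X]
    rw [FNA_filter (fun i j => (z i j : ℤ) ^ e₀ i j) b]
    refine Finset.prod_congr rfl fun j _ => ?_
    rw [hpow b j, hza b hba j]
  · have h1 := FNA_all (fun i j => (z i j : ℝ))
    push_cast
    rw [h1]
    refine le_trans ?_ hY
    refine Finset.prod_le_prod (fun i _ => Finset.prod_nonneg fun j _ => Nat.cast_nonneg _)
      fun i _ => Finset.prod_le_prod (fun j _ => Nat.cast_nonneg _) fun j _ => ?_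
    exact_mod_cast (hz1 i j).2

theorem FNQ_neg {E : ℕ} {γ ε Y : ℝ} {F : ℤ} (h : Dust E γ ε Y F) : Dust E γ ε Y (-F) := by
  obtain ⟨D, h1, h2⟩ := h
  exact ⟨D, fun l hl => ⟨(h1 l hl).1, (h1 l hl).2.1, (dvd_neg).2 (h1 l hl).2.2⟩, h2⟩

/-- the fibre of one exponent vector -/
theorem FNQ_fibre {n E : ℕ} {δ ε γ c₁ X₀ : ℝ}
    (hR : ∀ (X H : ℝ) (pt : Fin n → Fin 3)
      (e : Fin n → ℕ) (u w : ℤ) (L : Tw n) (S : Finset (Fin n → ℤ)), X₀ ≤ X →
      H ≤ Real.exp (X ^ c₁) → (∀ v, 1 ≤ e v ∧ (e v : ℝ) ≤ X) → u ≠ 0 → w ≠ 0 → Gd L →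
      (TI L).card = n → (∀ q ∈ L, Cx X 0 q.1) →
      (∀ z ∈ S, Sq pt e u w X E γ ε H z ∧ On L z ∧ eval z (TJ L) ≠ 0) →
      Set.InjOn (fun z => (eval z (en pt e 0), eval z (en pt e 1))) (S : Set (Fin n → ℤ)) →
      (S.card : ℝ) ≤ X ^ (((n : ℝ) + 1) * (2 * n + 6) * δ))
    (Y H : ℝ) (u : Fin 3 → ℤ) (a : Fin 3) (pt : Fin n → Fin 3) (e : Fin n → ℕ)
    (F : Finset (Fin 3 → ℤ)) (z : (Fin 3 → ℤ) → Fin n → ℤ) (hY : X₀ ≤ Y) (hY1 : 1 ≤ Y)
    (hH : H ≤ Real.exp (Y ^ c₁)) (he : ∀ v, 1 ≤ e v ∧ (e v : ℝ) ≤ Y)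
    (hF : ∀ x ∈ F, Admissible x ∧ Dust E γ ε Y (x a) ∧ (∀ i, |(x i : ℝ)| ≤ H) ∧
      (∀ v, 1 ≤ z x v) ∧ (∀ b, b ≠ a → x b = u b * eval (z x) (en pt e b)) ∧
      ∏ v, (z x v : ℝ) ≤ Y) :
    (F.card : ℝ) ≤ Y ^ (((n : ℝ) + 1) * (2 * n + 6) * δ) := by
  classical
  obtain ⟨b, c, σ, hba, hca, hbc, hσ0, hσ1, hcov, hsum⟩ := FNQ_idx a
  have hen0 : en (fun v => σ (pt v)) e 0 = en pt e b := by
    unfold en
    simp only [hσ0]
  have hen1 : en (fun v => σ (pt v)) e 1 = en pt e c := by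
    unfold en
    simp only [hσ1]
  rcases F.eq_empty_or_nonempty with h0 | ⟨x₀, hx₀⟩
  · rw [h0, card_empty, Nat.cast_zero]
    exact Real.rpow_nonneg (by linarith) _
  · have hu : ∀ i, i ≠ a → u i ≠ 0 := by
      intro i hi h
      obtain ⟨h1, -, -, -, h2, -⟩ := hF x₀ hx₀
      apply h1.1 i
      rw [h2 i hi, h, zero_mul]
    have hext : ∀ x ∈ F, ∀ y ∈ F, x b = y b → x c = y c → x = y := by
      intro x hx y hy h1 h2
      have h3 := hsum x
      have h4 := hsum y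
      rw [(hF x hx).1.2.2] at h3
      rw [(hF y hy).1.2.2] at h4
      funext i
      rcases hcov i with h | h | h
      · rw [h]
        linarith
      · rw [h]
        exact h1
      · rw [h]
        exact h2
    have hinj : Set.InjOn z (F : Set (Fin 3 → ℤ)) := by
      intro x hx y hy hxy
      obtain ⟨-, -, -, -, h2, -⟩ := hF x hx
      obtain ⟨-, -, -, -, h3, -⟩ := hF y hy
      refine hext x hx y hy ?_ ?_
      · rw [h2 b hba, h3 b hba, hxy]
      · rw [h2 c hca, h3 c hca, hxy]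
    have hcard : (F.image z).card = F.card := Finset.card_image_of_injOn hinj
    rw [← hcard]
    refine hR Y H (fun v => σ (pt v)) e (u b) (u c) [] (F.image z) hY hH he (hu b hba)
      (hu c hca) trivial ?_ ?_ ?_ ?_
    · show (univ : Finset (Fin n)).card = n
      rw [card_univ, Fintype.card_fin]
    · intro q hq
      exact absurd hq (List.not_mem_nil)
    · intro w hw
      obtain ⟨x, hx, rfl⟩ := mem_image.1 hw
      obtain ⟨h1, h2, h3, h4, h5, h6⟩ := hF x hx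
      refine ⟨⟨h4, h6, ?_, ?_, ?_, ?_⟩, ?_, ?_⟩
      · rw [hen0, hen1, ← h5 b hba, ← h5 c hca]
        exact h1.2.1 b c hbc
      · rw [hen0, ← h5 b hba]
        exact h3 b
      · rw [hen1, ← h5 c hca]
        exact h3 c
      · have h7 : eval (z x) (fq (fun v => σ (pt v)) e (u b) (u c)) = -(x a) := by
          unfold fq
          rw [hen0, hen1, map_add, map_mul, map_mul, eval_C, eval_C, ← h5 b hba, ← h5 c hca]
          have h8 := hsum x
          rw [h1.2.2] at h8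
          linarith
        rw [h7]
        exact FNQ_neg h2
      · intro q hq
        exact absurd hq (List.not_mem_nil)
      · show eval (z x) (1 : Pl n) ≠ 0
        rw [map_one]
        exact one_ne_zero
    · intro w hw w' hw' hww
      obtain ⟨x, hx, rfl⟩ := mem_image.1 (mem_coe.1 hw)
      obtain ⟨y, hy, rfl⟩ := mem_image.1 (mem_coe.1 hw')
      obtain ⟨-, -, -, -, h2, -⟩ := hF x hx
      obtain ⟨-, -, -, -, h3, -⟩ := hF y hy
      have hww' : (eval (z x) (en (fun v => σ (pt v)) e 0),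
          eval (z x) (en (fun v => σ (pt v)) e 1)) =
          (eval (z y) (en (fun v => σ (pt v)) e 0),
          eval (z y) (en (fun v => σ (pt v)) e 1)) := hww
      rw [hen0, hen1, Prod.mk.injEq] at hww'
      have : x = y := by
        refine hext x hx y hy ?_ ?_
        · rw [h2 b hba, h3 b hba, hww'.1]
        · rw [h2 c hca, h3 c hca, hww'.2]
      rw [this]

theorem pf_FNQ (hSTQ : T_STQ) : T_FNQ := by
  classical
  intro k η hη
  set n : ℕ := 3 * k with hn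
  set δ : ℝ := min 1 (η / (2 * (n + 1) * (2 * n + 6))) with hδdef
  have hD : (0 : ℝ) < 2 * (n + 1) * (2 * n + 6) := by positivity
  have hδ : 0 < δ := lt_min one_pos (div_pos hη hD)
  have hδ1 : δ ≤ 1 := min_le_left _ _
  have hδη : ((n : ℝ) + 1) * (2 * n + 6) * δ ≤ η / 2 := by
    have h1 : δ ≤ η / (2 * (n + 1) * (2 * n + 6)) := min_le_right _ _
    rw [le_div_iff₀ hD] at h1
    linarith
  obtain ⟨E, γ, c₁, X₀, hγ, hc₁, hX₀, hR⟩ := FNQ_rec hSTQ n δ η hδ hδ1 hη n 0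
  set c : ℝ := min c₁ (min (1 / 4) (η / (8 * (n + 1)))) with hc
  have hE : (0 : ℝ) < 8 * (n + 1) := by positivity
  have hc0 : 0 < c := lt_min hc₁ (lt_min (by norm_num) (div_pos hη hE))
  have hcc₁ : c ≤ c₁ := min_le_left _ _
  have hc4 : c ≤ 1 / 4 := (min_le_right _ _).trans (min_le_left _ _)
  have hcη : (n : ℝ) * c ≤ η / 8 := by
    have h1 : c ≤ η / (8 * (n + 1)) := (min_le_right _ _).trans (min_le_right _ _)
    rw [le_div_iff₀ hE] at h1
    have h2 : (0 : ℝ) ≤ n := Nat.cast_nonneg n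
    nlinarith
  set Y₁ : ℝ := max X₀ 4 with hY₁
  set C₀ : ℝ := ((FNA_box (Real.exp (Y₁ ^ c))).toFinset.card : ℝ) with hC₀
  have hfin : ∀ (Y : ℝ) (u : Fin 3 → ℤ) (a : Fin 3),
      (DustPowers k u a E γ η Y (Real.exp (Y ^ c))).Finite := by
    intro Y u a
    refine (FNA_box (Real.exp (Y ^ c))).subset ?_
    intro x hx
    exact hx.2.2.1
  refine ⟨E, γ, c, 3 ^ n + C₀, hγ, hc0, by positivity, ?_⟩
  intro Y u a hY
  refine ⟨hfin Y u a, ?_⟩
  rw [Set.ncard_eq_toFinset_card _ (hfin Y u a)]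
  set T := (hfin Y u a).toFinset with hT
  have hTm : ∀ x ∈ T, Admissible x ∧ (∃ z e : Fin 3 → Fin k → ℕ,
      (∀ i j, 1 ≤ z i j ∧ 1 ≤ e i j) ∧
      (∀ i, i ≠ a → x i = u i * ∏ j, (z i j : ℤ) ^ e i j) ∧ ∏ i, ∏ j, (z i j : ℝ) ≤ Y) ∧
      (∀ i, |(x i : ℝ)| ≤ Real.exp (Y ^ c)) ∧ Dust E γ η Y (x a) := by
    intro x hx
    rw [hT, Set.Finite.mem_toFinset] at hx
    exact hx
  have hYη : 1 ≤ Y ^ η := Real.one_le_rpow (by linarith) hη.le
  have hC₀0 : 0 ≤ C₀ := by positivity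
  rcases lt_or_ge Y Y₁ with hlt | hge
  · have h1 : T ⊆ (FNA_box (Real.exp (Y₁ ^ c))).toFinset := by
      intro x hx
      rw [Set.Finite.mem_toFinset]
      obtain ⟨-, -, h2, -⟩ := hTm x hx
      intro i
      refine (h2 i).trans (Real.exp_le_exp.2 ?_)
      exact Real.rpow_le_rpow (by linarith) hlt.le hc0.le
    have h2 : (T.card : ℝ) ≤ C₀ := by
      rw [hC₀]
      exact_mod_cast Finset.card_le_card h1
    have h3 : (0 : ℝ) ≤ 3 ^ n := by positivity
    nlinarith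
  · have hYX : X₀ ≤ Y := (le_max_left _ _).trans hge
    have hY4 : 4 ≤ Y := (le_max_right _ _).trans hge
    have hY1 : 1 ≤ Y := by linarith
    have hYc : 1 ≤ Y ^ c := Real.one_le_rpow hY1 hc0.le
    have hYc4 : 2 * Y ^ c ≤ Y := by
      have h1 : Y ^ c ≤ Y ^ (1 / 4 : ℝ) := Real.rpow_le_rpow_of_exponent_le hY1 hc4
      have h2 : Y ^ (1 / 4 : ℝ) ≤ Y ^ (1 / 2 : ℝ) :=
        Real.rpow_le_rpow_of_exponent_le hY1 (by norm_num)
      have h3 : 2 * Y ^ (1 / 2 : ℝ) ≤ Y := by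
        rw [← Real.sqrt_eq_rpow]
        have h4 : 2 ≤ Real.sqrt Y := by
          rw [show (2 : ℝ) = Real.sqrt 4 by
            rw [show (4 : ℝ) = 2 ^ 2 by norm_num, Real.sqrt_sq (by norm_num)]]
          exact Real.sqrt_le_sqrt hY4
        have h5 := Real.mul_self_sqrt (show (0 : ℝ) ≤ Y by linarith)
        nlinarith
      linarith
    have hHle : Real.exp (Y ^ c) ≤ Real.exp (Y ^ c₁) :=
      Real.exp_le_exp.2 (Real.rpow_le_rpow_of_exponent_le hY1 hcc₁)
    have hex : ∀ x : Fin 3 → ℤ, ∃ (z : Fin (3 * k) → ℤ) (e : Fin (3 * k) → ℕ), x ∈ T →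
        (∀ v, 1 ≤ z v) ∧ (∀ v, 1 ≤ e v ∧ (e v : ℝ) ≤ 2 * Y ^ c) ∧
        (∀ b, b ≠ a → x b = u b * eval z (en (FNA_pt k) e b)) ∧ ∏ v, (z v : ℝ) ≤ Y := by
      intro x
      by_cases hx : x ∈ T
      · obtain ⟨h1, h2, h3, -⟩ := hTm x hx
        obtain ⟨z, e, h4⟩ := FNQ_fin u a Y (Y ^ c) x h1 h2 hYc h3
        exact ⟨z, e, fun _ => h4⟩
      · exact ⟨fun _ => 0, fun _ => 0, fun h => absurd h hx⟩
    choose z e hze using hex
    have hmain := STP_card T e (Fintype.piFinset (fun _ : Fin n => range (⌊2 * Y ^ c⌋₊ + 1)))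
      (by
        intro x hx
        rw [Fintype.mem_piFinset]
        intro v
        rw [mem_range]
        exact Nat.lt_succ_of_le (Nat.le_floor ((hze x hx).2.1 v).2))
      (Y ^ (((n : ℝ) + 1) * (2 * n + 6) * δ))
      (by
        intro e₀ _
        rcases (T.filter (fun x => e x = e₀)).eq_empty_or_nonempty with h0 | ⟨x₀, hx₀⟩
        · rw [h0, card_empty, Nat.cast_zero]
          exact Real.rpow_nonneg (by linarith) _
        · rw [mem_filter] at hx₀
          have he₀ : ∀ v, 1 ≤ e₀ v ∧ (e₀ v : ℝ) ≤ Y := by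
            intro v
            have h1 := (hze x₀ hx₀.1).2.1 v
            rw [hx₀.2] at h1
            exact ⟨h1.1, h1.2.trans hYc4⟩
          refine FNQ_fibre hR Y (Real.exp (Y ^ c)) u a (FNA_pt k) e₀ _ z hYX hY1 hHle he₀ ?_
          intro x hx
          rw [mem_filter] at hx
          obtain ⟨h1, -, h3, h4⟩ := hTm x hx.1
          obtain ⟨h5, h6, h7, h8⟩ := hze x hx.1
          rw [hx.2] at h7
          exact ⟨h1, h4, h3, h5, h7, h8⟩)
    refine hmain.trans ?_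
    rw [Fintype.card_piFinset]
    simp only [card_range, prod_const, card_univ, Fintype.card_fin]
    push_cast
    have h1 : ((⌊2 * Y ^ c⌋₊ : ℕ) : ℝ) + 1 ≤ 3 * Y ^ c := by
      have := Nat.floor_le (show (0 : ℝ) ≤ 2 * Y ^ c by positivity)
      linarith
    have h2 : (((⌊2 * Y ^ c⌋₊ : ℕ) : ℝ) + 1) ^ n ≤ 3 ^ n * Y ^ (η / 8) := by
      refine (pow_le_pow_left₀ (by positivity) h1 n).trans ?_
      rw [mul_pow]
      refine mul_le_mul_of_nonneg_left ?_ (by positivity)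
      rw [← STP_pow Y c (by linarith) n]
      exact Real.rpow_le_rpow_of_exponent_le hY1 hcη
    have h3 : Y ^ (((n : ℝ) + 1) * (2 * n + 6) * δ) ≤ Y ^ (η / 2) :=
      Real.rpow_le_rpow_of_exponent_le hY1 hδη
    have h4 : Y ^ (η / 8) * Y ^ (η / 2) ≤ Y ^ η := by
      rw [← Real.rpow_add (by linarith)]
      exact Real.rpow_le_rpow_of_exponent_le hY1 (by linarith)
    calc _ ≤ 3 ^ n * Y ^ (η / 8) * Y ^ (η / 2) :=
          mul_le_mul h2 h3 (Real.rpow_nonneg (by linarith) _) (by positivity)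
      _ = 3 ^ n * (Y ^ (η / 8) * Y ^ (η / 2)) := by ring
      _ ≤ 3 ^ n * Y ^ η := mul_le_mul_of_nonneg_left h4 (by positivity)
      _ ≤ (3 ^ n + C₀) * Y ^ η := by
        have : 0 ≤ C₀ * Y ^ η := mul_nonneg hC₀0 (by linarith)
        linarith

end Pool.Agent.H4.QQ
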